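import Pool.Agent.R317.GodComp

set_option autoImplicit false

/-!
# Goddyn's conjecture for cubic graphs with flows on the components of the complement of `S`

Let `G` be a cubic graph (loops and parallel edges allowed) and let `S` be the union of two
edge-disjoint subgraphs `S0`, `Z` with all degrees even. Suppose that the edges outside `S` are
covered by two sets `A`, `B` such that for every union `K` of components of `G - S` the edges of `A`
inside `K`, and those of `B` inside `K`, form an even subgraph of the contraction `G/S`; that is,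
for each component of `G - S` the graph obtained from it by identifying the vertices of each
circuit of `S` has a nowhere-zero 4-flow. Then `(G, w)` has a faithful circuit cover for every
weight `w` which is `2` outside `S0` and constant (arbitrary, at least `1`) on each circuit of `S0`.
-/

namespace Pool.Agent.Results.MP_5dc923_co.ComponentFlows

open Finset

/-- A finite graph with vertex set `V` and edge set `E`: `ends e` is the unordered pair of
end-vertices of the edge `e`. Parallel edges are allowed, and so are loops (`ends e = s(v, v)`). -/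
structure Graph (V E : Type) where
  ends : E → Sym2 V

variable {V E : Type} [Fintype V] [DecidableEq V] [Fintype E] [DecidableEq E]

namespace Graph

/-- The degree of the vertex `v` in the subgraph with edge set `D`; a loop at `v` counts twice. -/
def deg (G : Graph V E) (D : Finset E) (v : V) : ℕ :=
  (D.filter fun e => v ∈ G.ends e).card + (D.filter fun e => G.ends e = s(v, v)).card

/-- `C` is the edge set of a circuit: it is nonempty, every vertex has degree `0` or `2` in it, and
it is connected (any two of its edges are joined by a chain of its edges in which consecutive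
edges share a vertex). -/
def IsCircuit (G : Graph V E) (C : Finset E) : Prop :=
  C.Nonempty ∧ (∀ v, G.deg C v = 0 ∨ G.deg C v = 2) ∧
    ∀ e ∈ C, ∀ f ∈ C,
      Relation.ReflTransGen (fun a b => b ∈ C ∧ ∃ v, v ∈ G.ends a ∧ v ∈ G.ends b) e f

/-- Every vertex has even degree in the subgraph with edge set `D`. -/
def IsEven (G : Graph V E) (D : Finset E) : Prop := ∀ v, Even (G.deg D v)

/-- The edge `e` has one end in `X` and one end outside `X`. -/
def Crosses (G : Graph V E) (X : Finset V) (e : E) : Prop :=
  (∃ v ∈ G.ends e, v ∈ X) ∧ ∃ v ∈ G.ends e, v ∉ X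

/-- Both ends of the edge `e` lie in `X`. -/
def Inside (G : Graph V E) (X : Finset V) (e : E) : Prop := ∀ v ∈ G.ends e, v ∈ X

/-- The parts of `A` in the components of `G - S` are even in the contraction `G/S`: for every
vertex set `K` crossed by no edge outside `S` (a union of components of `G - S`) and every vertex
set `U` crossed by no edge of `S`, the number of edges of `A` outside `S` which lie inside `K` and
cross `U` is even. -/
def EvenOnComponents (G : Graph V E) (S A : Finset E) : Prop :=
  ∀ K U : Finset V, (∀ e, e ∉ S → ¬ G.Crosses K e) → (∀ e ∈ S, ¬ G.Crosses U e) →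
    Even (Set.ncard {e | e ∈ A ∧ e ∉ S ∧ G.Inside K e ∧ G.Crosses U e})

end Graph

open Graph

/-- Let `G` be cubic, `S0` and `Z` disjoint even edge sets, and `A`, `B` two edge sets which cover
the edges outside `S = S0 ∪ Z` and whose parts in the components of `G - S` are even in `G/S`. Let
`w` be a weight which is `2` outside `S0`, at least `1` on `S0` and constant on each circuit
contained in `S0`. Then `(G, w)` has a faithful circuit cover, which contains every circuit in `S0`
of weight at least `2`. -/
theorem result (G : Graph V E) (hG : ∀ v, G.deg univ v = 3) (S0 Z A B : Finset E)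
    (h0 : G.IsEven S0) (hZ : G.IsEven Z) (hdisj : Disjoint S0 Z)
    (hcov : ∀ e, e ∈ S0 ∨ e ∈ Z ∨ e ∈ A ∨ e ∈ B)
    (hA : G.EvenOnComponents (S0 ∪ Z) A) (hB : G.EvenOnComponents (S0 ∪ Z) B)
    (w : E → ℕ) (hw0 : ∀ e, e ∉ S0 → w e = 2) (hw1 : ∀ e ∈ S0, 1 ≤ w e)
    (hwc : ∀ C, G.IsCircuit C → C ⊆ S0 → ∀ e ∈ C, ∀ f ∈ C, w e = w f) :
    ∃ F : Multiset (Finset E), (∀ C ∈ F, G.IsCircuit C) ∧
      (∀ e, F.countP (fun C => e ∈ C) = w e) ∧
      ∀ C, G.IsCircuit C → C ⊆ S0 → (∀ e ∈ C, 2 ≤ w e) → C ∈ F := by
  classical
  have key : ∀ D : Finset E, G.EvenOnComponents (S0 ∪ Z) D → ∀ K : Finset V,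
      (∀ e, e ∉ S0 ∪ Z → ¬ Pool.Agent.H164R5.Crosses
        (⟨G.ends⟩ : Pool.Agent.H126R2.CDC.MGraph V E) K e) →
      Pool.Agent.H164R5.EvenMod (⟨G.ends⟩ : Pool.Agent.H126R2.CDC.MGraph V E) (S0 ∪ Z)
        ((D \ (S0 ∪ Z)).filter fun e => Pool.Agent.H164R5.Inside
          (⟨G.ends⟩ : Pool.Agent.H126R2.CDC.MGraph V E) K e) := by
    intro D hD K hK U hU
    have h1 := hD K U hK hU
    have h2 : ({e | e ∈ D ∧ e ∉ S0 ∪ Z ∧ G.Inside K e ∧ G.Crosses U e} : Set E) =
        ((((D \ (S0 ∪ Z)).filter fun e => Pool.Agent.H164R5.Inside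
          (⟨G.ends⟩ : Pool.Agent.H126R2.CDC.MGraph V E) K e).filter fun e =>
            Pool.Agent.H164R5.Crosses (⟨G.ends⟩ : Pool.Agent.H126R2.CDC.MGraph V E) U e :
              Finset E) : Set E) := by
      ext e
      simp only [Set.mem_setOf_eq, coe_filter, mem_filter, mem_sdiff]
      exact ⟨fun h => ⟨⟨⟨h.1, h.2.1⟩, h.2.2.1⟩, h.2.2.2⟩,
        fun h => ⟨h.1.1.1, h.1.1.2, h.1.2, h.2⟩⟩
    rw [h2, Set.ncard_coe_finset] at h1
    convert h1 using 2
  exact Pool.Agent.R317.GodComp.faithful (⟨G.ends⟩ : Pool.Agent.H126R2.CDC.MGraph V E) hG S0 h0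
    (Pool.Agent.R317.GodComp.cdc (⟨G.ends⟩ : Pool.Agent.H126R2.CDC.MGraph V E) hG S0 Z A B h0 hZ
      hdisj hcov (key A hA) (key B hB)) w hw0 hw1 hwc

end Pool.Agent.Results.MP_5dc923_co.ComponentFlows
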