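import Pool.Agent.R759.BOMain

/-!
Problem MP_5dc923_co: faithful circuit covers of graphs with a group of automorphisms which acts
semiregularly, and invariant weights which are even and balanced between any two different orbits.
-/

set_option autoImplicit false
set_option linter.unusedSectionVars false
open scoped Classical

namespace Pool.Agent.Results.MP_5dc923_co.InvariantWeights

open Finset Pool.Agent.R759.CW Pool.Agent.R759.BW Pool.Agent.R759.BS Pool.Agent.R759.OC
open Pool.Agent.R759.BO Pool.Agent.TH505.OCDC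

/-- the weight `w(δ(X))` of the edge cut `δ(X)` -/
noncomputable def cutWeight {V : Type} [Fintype V] (G : SimpleGraph V) (w : Sym2 V → ℕ)
    (X : Finset V) : ℕ :=
  ∑ u ∈ X, ∑ v with G.Adj u v ∧ v ∉ X, w s(u, v)

/-- `(G, w)` has a faithful circuit cover: there is a list of circuits of `G` such that every edge
`e` lies in exactly `w e` of them. -/
def FaithfulCover {V : Type} (G : SimpleGraph V) (w : Sym2 V → ℕ) : Prop :=
  ∃ C : List (Σ v : V, G.Walk v v), (∀ c ∈ C, c.2.IsCycle) ∧
    ∀ e ∈ G.edgeSet, (C.map (fun c => if e ∈ c.2.edges then 1 else 0)).sum = w e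

section

variable {V : Type} [Fintype V] {G : SimpleGraph V}

lemma dc_cycle {x : V} {c : G.Walk x x} (hc : c.IsCycle) {u v : V} (huv : u ≠ v) :
    dc c u v + dc c v u = if s(u, v) ∈ c.edges then 1 else 0 := by
  rw [dc_add_le_count c huv]
  split_ifs with h
  · exact List.count_eq_one_of_mem hc.isTrail.edges_nodup h
  · exact List.count_eq_zero.2 h

/-- number of circuits of a list containing an edge -/
noncomputable def cnt (C : List (Σ v : V, G.Walk v v)) (e : Sym2 V) : ℕ :=
  (C.map (fun c => if e ∈ c.2.edges then 1 else 0)).sum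

lemma cnt_eq (C : List (Σ v : V, G.Walk v v)) (hC : ∀ c ∈ C, c.2.IsCycle) {u v : V}
    (huv : u ≠ v) : cnt C s(u, v) = tot C u v + tot C v u := by
  induction C with
  | nil => rfl
  | cons c C ih =>
    rw [tot_cons, tot_cons]
    have h1 := ih (fun d hd => hC d (List.mem_cons_of_mem _ hd))
    have h2 := dc_cycle (hC c List.mem_cons_self) huv
    have h3 : cnt (c :: C) s(u, v) = (if s(u, v) ∈ c.2.edges then 1 else 0) + cnt C s(u, v) := by
      unfold cnt
      rw [List.map_cons, List.sum_cons]
    rw [h3, h1, ← h2]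
    omega

lemma cut_walk {y : V} {c : G.Walk y y} (X : Finset V) :
    ∑ u ∈ X, ∑ v with v ∉ X, dc c u v = ∑ u ∈ X, ∑ v with v ∉ X, dc c v u := by
  have h1 : ∑ u ∈ X, ∑ v, dc c u v = ∑ u ∈ X, ∑ v, dc c v u :=
    Finset.sum_congr rfl fun u _ => dc_closed c u
  have h2 : ∀ f : V → V → ℕ, ∑ u ∈ X, ∑ v, f u v =
      ∑ u ∈ X, ∑ v ∈ X, f u v + ∑ u ∈ X, ∑ v with v ∉ X, f u v := by
    intro f
    rw [← Finset.sum_add_distrib]
    refine Finset.sum_congr rfl fun u _ => ?_
    rw [← Finset.sum_filter_add_sum_filter_not univ (fun v => v ∈ X) (fun v => f u v)]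
    congr 1
    refine Finset.sum_congr ?_ fun _ _ => rfl
    ext v
    simp
  rw [h2 (fun u v => dc c u v), h2 (fun u v => dc c v u)] at h1
  have h3 : ∑ u ∈ X, ∑ v ∈ X, dc c v u = ∑ u ∈ X, ∑ v ∈ X, dc c u v := Finset.sum_comm
  rw [h3] at h1
  exact Nat.add_left_cancel h1

lemma cut_list (X : Finset V) (C : List (Σ v : V, G.Walk v v)) (hC : ∀ c ∈ C, c.2.IsCycle) :
    Even (∑ u ∈ X, ∑ v with v ∉ X, (tot C u v + tot C v u)) ∧
    ∀ u ∈ X, ∀ v, v ∉ X → 2 * (tot C u v + tot C v u) ≤
      ∑ u ∈ X, ∑ v with v ∉ X, (tot C u v + tot C v u) := by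
  induction C with
  | nil =>
    constructor
    · have : ∑ u ∈ X, ∑ v with v ∉ X, (tot ([] : List (Σ v : V, G.Walk v v)) u v +
          tot ([] : List (Σ v : V, G.Walk v v)) v u) = 0 :=
        Finset.sum_eq_zero fun u _ => Finset.sum_eq_zero fun v _ => rfl
      rw [this]
      exact Even.zero
    · intro u _ v _
      exact Nat.zero_le _
  | cons c C ih =>
    obtain ⟨i1, i2⟩ := ih (fun d hd => hC d (List.mem_cons_of_mem _ hd))
    have hc := hC c List.mem_cons_self
    have e1 : ∑ u ∈ X, ∑ v with v ∉ X, (tot (c :: C) u v + tot (c :: C) v u) =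
        (∑ u ∈ X, ∑ v with v ∉ X, dc c.2 u v + ∑ u ∈ X, ∑ v with v ∉ X, dc c.2 v u) +
        ∑ u ∈ X, ∑ v with v ∉ X, (tot C u v + tot C v u) := by
      rw [← Finset.sum_add_distrib, ← Finset.sum_add_distrib]
      refine Finset.sum_congr rfl fun u _ => ?_
      rw [← Finset.sum_add_distrib, ← Finset.sum_add_distrib]
      refine Finset.sum_congr rfl fun v _ => ?_
      rw [tot_cons, tot_cons]
      omega
    have e2 := cut_walk (c := c.2) X
    constructor
    · rw [e1, ← e2]
      exact (Even.add_self _).add i1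
    · intro u hu v hv
      rw [e1, tot_cons, tot_cons]
      have j1 := i2 u hu v hv
      have huv : u ≠ v := fun h => hv (h ▸ hu)
      have j2 := dc_cycle hc huv
      have j3 : dc c.2 u v ≤ ∑ u ∈ X, ∑ v with v ∉ X, dc c.2 u v := by
        refine le_trans ?_ (Finset.single_le_sum
          (f := fun u => ∑ v with v ∉ X, dc c.2 u v) (fun _ _ => Nat.zero_le _) hu)
        exact Finset.single_le_sum (f := fun v => dc c.2 u v) (fun _ _ => Nat.zero_le _)
          (mem_filter.2 ⟨mem_univ v, hv⟩)
      have j4 : dc c.2 v u ≤ ∑ u ∈ X, ∑ v with v ∉ X, dc c.2 v u := by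
        refine le_trans ?_ (Finset.single_le_sum
          (f := fun u => ∑ v with v ∉ X, dc c.2 v u) (fun _ _ => Nat.zero_le _) hu)
        exact Finset.single_le_sum (f := fun v => dc c.2 v u) (fun _ _ => Nat.zero_le _)
          (mem_filter.2 ⟨mem_univ v, hv⟩)
      split_ifs at j2 <;> omega

lemma cover_cuts {w : Sym2 V → ℕ} (h : FaithfulCover G w) (X : Finset V) :
    Even (cutWeight G w X) ∧
      ∀ u ∈ X, ∀ v, v ∉ X → G.Adj u v → 2 * w s(u, v) ≤ cutWeight G w X := by
  obtain ⟨C, hC, hw⟩ := h
  have h0 : ∀ u v, G.Adj u v → w s(u, v) = tot C u v + tot C v u := by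
    intro u v huv
    rw [← cnt_eq C hC huv.ne]
    exact (hw s(u, v) huv).symm
  have h1 : ∀ u v, ¬ G.Adj u v → tot C u v = 0 := by
    intro u v huv
    clear hw h0 hC
    induction C with
    | nil => rfl
    | cons c C ih =>
      rw [tot_cons, ih, add_zero]
      by_contra h3
      exact huv (dc_adj c.2 (Nat.pos_of_ne_zero h3))
  have h2 : cutWeight G w X = ∑ u ∈ X, ∑ v with v ∉ X, (tot C u v + tot C v u) := by
    unfold cutWeight
    refine Finset.sum_congr rfl fun u _ => ?_
    rw [Finset.sum_filter, Finset.sum_filter]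
    refine Finset.sum_congr rfl fun v _ => ?_
    by_cases hv : v ∈ X
    · rw [if_neg (fun h => h.2 hv), if_neg (fun h => h hv)]
    · by_cases huv : G.Adj u v
      · rw [if_pos ⟨huv, hv⟩, if_pos hv, h0 u v huv]
      · rw [if_neg (fun h => huv h.1), if_pos hv, h1 u v huv, h1 v u (fun h => huv h.symm),
          add_zero]
  obtain ⟨i1, i2⟩ := cut_list X C hC
  rw [h2]
  refine ⟨i1, fun u hu v hv huv => ?_⟩
  rw [h0 u v huv]
  exact i2 u hu v hv

lemma cut_single (w : Sym2 V → ℕ) (v : V) :
    cutWeight G w {v} = ∑ t with G.Adj v t, w s(v, t) := by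
  unfold cutWeight
  rw [Finset.sum_singleton]
  refine Finset.sum_congr ?_ fun _ _ => rfl
  ext t
  simp only [mem_filter, mem_univ, true_and, mem_singleton]
  exact ⟨fun h => h.1, fun h => ⟨h, h.ne'⟩⟩

end

/-- A graph `G` on `Γ × ι` which is invariant under the left translations by the elements of the
group `Γ`, with an invariant weight `p` of the edges (even or odd), such that for any two different
`i, j` in `ι` and any vertex in `Γ × {i}` the total weight of the edges from this vertex to
`Γ × {j}` is even and none of these edges is heavier than all the others together. Then `(G, p)` has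
a faithful circuit cover if and only if `p` is eulerian and admissible, if and only if for every
vertex the total weight is even and no edge is heavier than all other edges together. -/
theorem result (Γ ι : Type) [Group Γ] [Fintype Γ] [Fintype ι] (G : SimpleGraph (Γ × ι))
    (hG : ∀ (g x y : Γ) (i j : ι), G.Adj (x, i) (y, j) → G.Adj (g * x, i) (g * y, j))
    (p : Sym2 (Γ × ι) → ℕ)
    (hp : ∀ (g x y : Γ) (i j : ι), G.Adj (x, i) (y, j) →
      p s((g * x, i), (g * y, j)) = p s((x, i), (y, j)))
    (hev : ∀ (x : Γ) (i j : ι), i ≠ j →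
      Even (∑ t with G.Adj (x, i) (t, j), p s((x, i), (t, j))))
    (hbal : ∀ (x y : Γ) (i j : ι), i ≠ j → G.Adj (x, i) (y, j) → 2 * p s((x, i), (y, j)) ≤
      ∑ t with G.Adj (x, i) (t, j), p s((x, i), (t, j))) :
    [FaithfulCover G p,
      ∀ X : Finset (Γ × ι), Even (cutWeight G p X) ∧
        ∀ u ∈ X, ∀ v, v ∉ X → G.Adj u v → 2 * p s(u, v) ≤ cutWeight G p X,
      ∀ v, Even (∑ t with G.Adj v t, p s(v, t)) ∧
        ∀ w, G.Adj v w → 2 * p s(v, w) ≤ ∑ t with G.Adj v t, p s(v, t)].TFAE := by
  tfae_have 1 → 2 := fun h X => cover_cuts h X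
  tfae_have 2 → 3 := by
    intro h v
    obtain ⟨h1, h2⟩ := h {v}
    rw [cut_single] at h1 h2
    exact ⟨h1, fun w hw => h2 v (mem_singleton_self v) w
      (fun h => hw.ne' (mem_singleton.1 h)) hw⟩
  tfae_have 3 → 1 := by
    intro h
    let w : ι → ι → Γ → ℕ := fun i j s => if G.Adj (1, i) (s, j) then p s((1, i), (s, j)) else 0
    have inv : ∀ (i j : ι) (s : Γ), G.Adj (1, i) (s, j) → G.Adj (1, j) (s⁻¹, i) := by
      intro i j s hs
      have := hG s⁻¹ 1 s i j hs
      rw [mul_one, inv_mul_cancel] at this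
      exact this.symm
    have w_pos : ∀ i j s, G.Adj (1, i) (s, j) → w i j s = p s((1, i), (s, j)) :=
      fun i j s hs => if_pos hs
    have w_neg : ∀ i j s, ¬ G.Adj (1, i) (s, j) → w i j s = 0 := fun i j s hs => if_neg hs
    have hsym : ∀ i j s, w j i s⁻¹ = w i j s := by
      intro i j s
      by_cases hs : G.Adj (1, i) (s, j)
      · rw [w_pos i j s hs, w_pos j i s⁻¹ (inv i j s hs)]
        have := hp s⁻¹ 1 s i j hs
        rw [mul_one, inv_mul_cancel] at this
        rw [← this, Sym2.eq_swap]
      · have hs' : ¬ G.Adj (1, j) (s⁻¹, i) := by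
          intro h'
          have := inv j i s⁻¹ h'
          rw [inv_inv] at this
          exact hs this
        rw [w_neg i j s hs, w_neg j i s⁻¹ hs']
    have hadj : ∀ i j s, w i j s ≠ 0 → ∀ x, G.Adj (x, i) (x * s, j) := by
      intro i j s hs x
      have h1 : G.Adj (1, i) (s, j) := by
        by_contra h'
        exact hs (w_neg i j s h')
      have := hG x 1 s i j h1
      rwa [mul_one] at this
    have hD : ∀ i, ∑ t with G.Adj (1, i) t, p s((1, i), t) = ∑ j, ∑ s, w i j s := by
      intro i
      rw [Finset.sum_filter, Fintype.sum_prod_type, Finset.sum_comm]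
    have hT : ∀ i j, ∑ t with G.Adj (1, i) (t, j), p s((1, i), (t, j)) = ∑ s, w i j s := by
      intro i j
      rw [Finset.sum_filter]
    have hTe : ∀ i j, i ≠ j → Even (∑ s, w i j s) := by
      intro i j hij
      rw [← hT i j]
      exact hev 1 i j hij
    have hSe : ∀ i, Even (∑ s, w i i s) := by
      intro i
      have h1 := (h (1, i)).1
      rw [hD i, ← Finset.sum_erase_add _ _ (mem_univ i)] at h1
      have h2 : Even (∑ j ∈ univ.erase i, ∑ s, w i j s) :=
        Finset.even_sum _ (fun j hj => hTe i j (fun h => (mem_erase.1 hj).1 h.symm))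
      exact (Nat.even_add.1 h1).1 h2
    have hcov := coverI (G := G) _ w rfl hsym hadj hTe hSe ?_ ?_
    · obtain ⟨C, hC, hC'⟩ := hcov
      refine ⟨C, hC, ?_⟩
      intro e he
      induction e using Sym2.ind with
      | _ u v =>
      have he' : G.Adj u v := he
      show cnt C s(u, v) = p s(u, v)
      rw [cnt_eq C hC he'.ne, hC' u v]
      obtain ⟨x, i⟩ := u
      obtain ⟨y, j⟩ := v
      have h5 := hG x⁻¹ x y i j he'
      rw [inv_mul_cancel] at h5
      have h6 := hp x⁻¹ x y i j he'
      rw [inv_mul_cancel] at h6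
      rw [← h6]
      exact if_pos h5
    · intro i j hij s
      by_cases hs : G.Adj (1, i) (s, j)
      · rw [w_pos i j s hs, ← hT i j]
        exact hbal 1 s i j hij hs
      · rw [w_neg i j s hs]
        exact Nat.zero_le _
    · intro i c _
      rw [← hD i]
      by_cases hs : G.Adj (1, i) (c, i)
      · rw [w_pos i i c hs]
        exact (h (1, i)).2 _ hs
      · rw [w_neg i i c hs]
        exact Nat.zero_le _
  tfae_finish

end Pool.Agent.Results.MP_5dc923_co.InvariantWeights
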