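import Pool.Agent.W614.SC.Main

set_option autoImplicit false

/-!
# Faithful circuit covers with weights 2 and 4 containing a prescribed circuit

Let `G` be a finite bridgeless graph and `C` any circuit of `G`.  There is an eulerian weight `w`
with values in `{2, 4}` and a faithful circuit cover of `(G, w)` that contains `C`, where the edges
of weight `4` are at most half of the edges of a union of edge-disjoint circuits without vertices
on `C`.  In particular `C` is in a circuit double cover if `G - V(C)` is a forest.
-/

namespace Pool.Agent.Results.MP_5dc923_co.PrescribedCircuit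

open Finset

/-- A finite loopless multigraph with vertex type `V` and edge type `E`; parallel edges are
allowed. -/
structure Graph (V E : Type) where
  ends : E → Sym2 V
  loopless : ∀ e, ¬ (ends e).IsDiag

variable {V E : Type} [Fintype V] [DecidableEq V] [Fintype E] [DecidableEq E]

namespace Graph

/-- The degree of the vertex `v` in the subgraph with edge set `F`. -/
def deg (G : Graph V E) (F : Finset E) (v : V) : ℕ := (F.filter fun e => v ∈ G.ends e).card

/-- `C` is the edge set of a circuit: it is nonempty, every vertex has degree `0` or `2` in it, and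
it is connected (any two of its edges are joined by a chain of its edges in which consecutive edges
share a vertex). -/
def IsCircuit (G : Graph V E) (C : Finset E) : Prop :=
  C.Nonempty ∧ (∀ v, G.deg C v = 0 ∨ G.deg C v = 2) ∧
    ∀ e ∈ C, ∀ f ∈ C,
      Relation.ReflTransGen (fun a b => b ∈ C ∧ ∃ v, v ∈ G.ends a ∧ v ∈ G.ends b) e f

/-- Bridgeless: every edge lies on a circuit. -/
def Bridgeless (G : Graph V E) : Prop := ∀ e, ∃ X, G.IsCircuit X ∧ e ∈ X

/-- No vertex of the subgraph with edge set `X` is on `C`. -/
def Apart (G : Graph V E) (X C : Finset E) : Prop := ∀ e ∈ X, ∀ v ∈ G.ends e, G.deg C v = 0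

end Graph

/-- Let `C` be a circuit of the finite bridgeless graph `G`.
1. There are a weight `w` with `w e ∈ {2, 4}` for all edges and a faithful circuit cover `A` of
   `(G, w)` (in particular `w` is eulerian) with `C ∈ A`; moreover `A` is the union of `C` and of
   five families of edge-disjoint circuits.  The edges of weight `4` all lie in the fifth family
   `D`, whose members have no vertex on `C`, and they are at most half of the edges of `D`.  If `G`
   is cubic, then at most `(|V| - |C|) / 2` edges have weight `4`.
2. If every circuit of `G` has a vertex on `C` (that is, `G - V(C)` is a forest), then `C` is a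
   member of a circuit double cover of `G`. -/
theorem result (G : Graph V E) (hG : G.Bridgeless) (C : Finset E) (hC : G.IsCircuit C) :
    (∃ (w : E → ℕ) (F : Fin 5 → Multiset (Finset E)),
      (∀ e, w e = 2 ∨ w e = 4) ∧
      (∀ i, ∀ X ∈ F i, G.IsCircuit X) ∧
      (∀ i e, (F i).countP (fun X => e ∈ X) ≤ 1) ∧
      (∀ e, (C ::ₘ ∑ i, F i).countP (fun X => e ∈ X) = w e) ∧
      (∀ X ∈ F 4, G.Apart X C) ∧
      (∀ e, w e = 4 → (F 4).countP (fun X => e ∈ X) = 1) ∧
      2 * (univ.filter fun e => w e = 4).card ≤
        (univ.filter fun e => (F 4).countP (fun X => e ∈ X) = 1).card ∧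
      ((∀ v, G.deg univ v = 3) →
        2 * (univ.filter fun e => w e = 4).card + C.card ≤ Fintype.card V)) ∧
    ((∀ X, G.IsCircuit X → ¬ G.Apart X C) →
      ∃ A : Multiset (Finset E), C ∈ A ∧ (∀ X ∈ A, G.IsCircuit X) ∧
        ∀ e, A.countP (fun X => e ∈ X) = 2) := by
  obtain ⟨F, h1, h2, h3, h4, h5, h6⟩ := Pool.Agent.W614.SC.main
    (⟨G.ends, G.loopless⟩ : Pool.Agent.Helper347.Sab.MGraph V E) hG C hC
  have hw : ∀ e, (C ::ₘ ∑ i, F i).countP (fun X => e ∈ X) = 2 ∨
      (C ::ₘ ∑ i, F i).countP (fun X => e ∈ X) = 4 := fun e => (h4 e).imp id And.left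
  refine ⟨⟨fun e => (C ::ₘ ∑ i, F i).countP (fun X => e ∈ X), F, hw, h1, h2, fun e => rfl, h3,
    fun e he => ?_, h5, h6⟩, fun hX => ⟨C ::ₘ ∑ i, F i, Multiset.mem_cons_self _ _, ?_, ?_⟩⟩
  · rcases h4 e with h | h
    · exact absurd (h.symm.trans he) (by decide)
    · exact h.2
  · intro X hXA
    rcases Multiset.mem_cons.1 hXA with rfl | h
    · exact hC
    · rw [Multiset.mem_sum] at h
      obtain ⟨i, -, hi⟩ := h
      exact h1 i X hi
  · intro e
    have h7 : F 4 = 0 := by
      rw [Multiset.eq_zero_iff_forall_notMem]
      exact fun X hX4 => hX X (h1 4 X hX4) (h3 X hX4)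
    rcases h4 e with h | h
    · exact h
    · have h8 := h.2
      rw [h7, Multiset.countP_zero] at h8
      exact absurd h8 (by decide)

end Pool.Agent.Results.MP_5dc923_co.PrescribedCircuit
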